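import Pool.Agent.Y820.LF.Fin

set_option autoImplicit false

/-! Linear forms with coefficients up to a power of the logarithm: the deterministic part. -/

namespace Pool.Agent.N699.ST
open Finset
open Pool.Agent.H373R2.T7
open Pool.Agent.H560R3.GB
open Pool.Agent.Y820.LF
open Pool.Agent.Y820.LF.TR

/-- from the weighted sum to the number of the prime values -/
lemma tr_poly (k A B : ℕ) (hk : 1 ≤ k) (c ε : ℝ) (hc : 0 < c) (hε : 0 < ε) : ∃ d0 : ℝ, 0 < d0 ∧ ∃ n0 : ℕ, ∀ N : ℕ, n0 ≤ N →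
    ∀ x : ℕ, (N : ℝ) ≤ x * Real.log N ^ A →
    ∀ C H : Fin k → ℤ, (∀ i, 1 ≤ C i ∧ C i * x ≤ N) → (∀ i, 0 ≤ H i ∧ H i ≤ (B : ℤ) * N) → ∀ S : ℝ, c ≤ S →
    |∑ n ∈ Icc 1 x, ∏ i, lamI (C i * (n : ℤ) + H i) - S * x| ≤ d0 * (S * x) →
    |(cntF C H x : ℝ) - S * (x / Real.log N ^ k)| ≤ ε * (S * (x / Real.log N ^ k)) := by
  obtain ⟨k', rfl⟩ : ∃ k', k = k' + 1 := ⟨k - 1, by omega⟩
  obtain ⟨δ, hδ0, hδ1, hδa, hδb⟩ := choose_delta k' ε hε
  have hlim : Filter.Tendsto (fun n : ℕ => (n : ℝ)) Filter.atTop Filter.atTop := tendsto_natCast_atTop_atTop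
  have hk0 : (0 : ℝ) < ((k' + 1 : ℕ) : ℝ) := by positivity
  have h1 : ∀ᶠ n : ℕ in Filter.atTop, ((k' + 1 : ℕ) : ℝ) * Real.log n ^ (k' + 1 + A) ≤ (δ * c) * (n : ℝ) ^ δ := by
    have h := (isLittleO_log_rpow_rpow_atTop ((k' + 1 + A : ℕ) : ℝ) (show (0 : ℝ) < δ by positivity)).bound
      (show 0 < δ * c / ((k' + 1 : ℕ) : ℝ) by positivity)
    filter_upwards [hlim.eventually h, hlim.eventually_ge_atTop 1] with n hn hn1
    have h0 : 0 ≤ Real.log (n : ℝ) := Real.log_nonneg hn1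
    rw [Real.norm_of_nonneg (by positivity), Real.norm_of_nonneg (by positivity), Real.rpow_natCast] at hn
    calc ((k' + 1 : ℕ) : ℝ) * Real.log n ^ (k' + 1 + A) ≤
        ((k' + 1 : ℕ) : ℝ) * (δ * c / ((k' + 1 : ℕ) : ℝ) * (n : ℝ) ^ δ) :=
          mul_le_mul_of_nonneg_left hn hk0.le
      _ = (δ * c) * (n : ℝ) ^ δ := by field_simp
  obtain ⟨b, hb⟩ : ∃ b : ℝ, b = (B : ℝ) + 1 := ⟨_, rfl⟩
  have hb1 : 1 ≤ b := by
    have : (0 : ℝ) ≤ B := Nat.cast_nonneg _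
    linarith
  obtain ⟨K, hK⟩ : ∃ K : ℝ, K = 2 ^ (k' + 1) * (((k' + 1 : ℕ) : ℝ) * (2 * √b * 2)) := ⟨_, rfl⟩
  have hK0 : 0 < K := by
    have : 0 < √b := Real.sqrt_pos.2 (by linarith)
    rw [hK]
    positivity
  have h2 : ∀ᶠ n : ℕ in Filter.atTop, K * Real.log n ^ (k' + 2 + A) ≤ (δ / 2 * c) * √(n : ℝ) := by
    have h := (isLittleO_log_rpow_rpow_atTop ((k' + 2 + A : ℕ) : ℝ) (show (0 : ℝ) < 1 / 2 by norm_num)).bound
      (show 0 < δ / 2 * c / K by positivity)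
    filter_upwards [hlim.eventually h, hlim.eventually_ge_atTop 1] with n hn hn1
    have h0 : 0 ≤ Real.log (n : ℝ) := Real.log_nonneg hn1
    rw [Real.norm_of_nonneg (by positivity), Real.norm_of_nonneg (by positivity), Real.rpow_natCast,
      ← Real.sqrt_eq_rpow] at hn
    calc K * Real.log n ^ (k' + 2 + A) ≤ K * (δ / 2 * c / K * √(n : ℝ)) :=
          mul_le_mul_of_nonneg_left hn hK0.le
      _ = (δ / 2 * c) * √(n : ℝ) := by field_simp
  obtain ⟨n1, hn1⟩ := Filter.eventually_atTop.1 (h1.and h2)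
  obtain ⟨n2, hn2⟩ := ev_L' (Real.log b / δ + 1)
  refine ⟨δ / 2, by positivity, max n1 (max n2 3), fun N hN x hxA C H hC hH S hS hT => ?_⟩
  obtain ⟨b1, b1'⟩ := hn1 N ((le_max_left _ _).trans hN)
  have b2 := hn2 N (((le_max_left _ _).trans (le_max_right _ _)).trans hN)
  have hN3 : 3 ≤ N := ((le_max_right _ _).trans (le_max_right _ _)).trans hN
  have hNr : (3 : ℝ) ≤ N := by exact_mod_cast hN3
  have hN0 : (0 : ℝ) < N := by linarith
  have hlA : 0 ≤ Real.log b := Real.log_nonneg hb1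
  obtain ⟨L, hLd⟩ : ∃ L : ℝ, L = Real.log (N : ℝ) := ⟨_, rfl⟩
  rw [← hLd] at b1 b1' b2 hxA ⊢
  have q1 : 0 ≤ Real.log b / δ := by positivity
  have hL1 : 1 ≤ L := by linarith
  have hL0 : 0 < L := by linarith
  have hLB : Real.log b ≤ δ * L := by
    have h : Real.log b / δ ≤ L := by linarith
    rw [div_le_iff₀ hδ0] at h
    linarith
  have hLA : 0 < L ^ A := by positivity
  have hx0 : (0 : ℝ) < x := by
    by_contra hcon
    have : (x : ℝ) * L ^ A ≤ 0 := mul_nonpos_of_nonpos_of_nonneg (not_lt.1 hcon) hLA.le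
    linarith
  have hx1 : 1 ≤ x := by exact_mod_cast hx0
  obtain ⟨W, hW⟩ : ∃ W : ℕ, W = (B + 1) * N := ⟨_, rfl⟩
  have hWr : (W : ℝ) = b * N := by rw [hW, hb]; push_cast; ring
  have hlW : Real.log W = Real.log b + L := by rw [hWr, Real.log_mul (by linarith) hN0.ne', hLd]
  have hlW1 : 1 ≤ Real.log W := by rw [hlW]; linarith
  have hlW2 : Real.log W ≤ (1 + δ) * L := by rw [hlW]; linarith
  have hlW3 : Real.log W ≤ 2 * L := hlW2.trans (by nlinarith)
  have hW1 : 1 ≤ W := by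
    rw [hW]
    exact Nat.mul_pos (by omega) (by omega)
  have hval : ∀ i, ∀ n ∈ Icc 1 x, C i * (n : ℤ) + H i ≤ W := by
    intro i n hn
    rw [mem_Icc] at hn
    have e1 : C i * (n : ℤ) ≤ C i * x := mul_le_mul_of_nonneg_left (by exact_mod_cast hn.2) (by have := (hC i).1; omega)
    have e2 := (hC i).2
    have e3 := (hH i).2
    rw [hW]
    push_cast
    linarith
  have hP : PosF C H x := by
    intro i
    have e1 := (hC i).1
    have e3 := (hH i).1
    refine ⟨by omega, ?_⟩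
    have : 1 * 1 ≤ C i * (x : ℤ) := mul_le_mul e1 (by exact_mod_cast hx1) (by norm_num) (by omega)
    omega
  have hC0 : ∀ i, C i ≠ 0 := fun i => by have := (hC i).1; omega
  have hup := upF C H x W hW1 hval
  have hlo := lowF C H hC0 x hP ((N : ℝ) ^ (1 - δ)) ((1 - δ) * L)
    (Real.one_le_rpow (by linarith) (by linarith)) (mul_nonneg (by linarith) hL0.le)
    (by rw [Real.log_rpow hN0, hLd])
  have hdf := diffF C H hC0 x W hlW1 hval
  obtain ⟨T, hTd⟩ : ∃ T : ℝ, T = ∑ n ∈ Icc 1 x, ∏ i, lamI (C i * (n : ℤ) + H i) := ⟨_, rfl⟩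
  obtain ⟨T', hTd'⟩ : ∃ T' : ℝ, T' = ∑ n ∈ Icc 1 x, ∏ i, lamP (C i * (n : ℤ) + H i) := ⟨_, rfl⟩
  obtain ⟨P, hP'⟩ : ∃ P : ℝ, P = (cntF C H x : ℝ) := ⟨_, rfl⟩
  rw [← hTd] at hT hdf
  rw [← hTd'] at hup hlo hdf
  rw [← hP'] at hup hlo ⊢
  have hP0 : 0 ≤ P := by rw [hP']; exact Nat.cast_nonneg _
  obtain ⟨M, hM⟩ : ∃ M : ℝ, M = S * x := ⟨_, rfl⟩
  rw [← hM] at hT
  have hMc : c * x ≤ M := by rw [hM]; exact mul_le_mul_of_nonneg_right hS hx0.le
  have hM0 : 0 < M := lt_of_lt_of_le (by positivity) hMc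
  have hdf2 : |T - T'| ≤ δ / 2 * M := by
    refine hdf.trans ?_
    have e1 : √(W : ℝ) = √b * √(N : ℝ) := by rw [hWr, Real.sqrt_mul (by linarith)]
    have e2 : √(N : ℝ) * √(N : ℝ) = N := Real.mul_self_sqrt hN0.le
    have h5 : Real.log W ^ (k' + 1) ≤ (2 * L) ^ (k' + 1) := pow_le_pow_left₀ (by linarith) hlW3 _
    have h6 : (K * L ^ (k' + 2)) * √(N : ℝ) ≤ δ / 2 * (c * x) := by
      have h7 : (K * L ^ (k' + 2)) * √(N : ℝ) * L ^ A ≤ δ / 2 * (c * x) * L ^ A := by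
        calc (K * L ^ (k' + 2)) * √(N : ℝ) * L ^ A = (K * L ^ (k' + 2 + A)) * √(N : ℝ) := by
              rw [pow_add L (k' + 2) A]; ring
          _ ≤ ((δ / 2 * c) * √(N : ℝ)) * √(N : ℝ) := mul_le_mul_of_nonneg_right b1' (Real.sqrt_nonneg _)
          _ = δ / 2 * c * N := by rw [mul_assoc, e2]
          _ ≤ δ / 2 * c * (x * L ^ A) := mul_le_mul_of_nonneg_left hxA (by positivity)
          _ = _ := by ring
      exact le_of_mul_le_mul_right h7 hLA
    calc Real.log W ^ (k' + 1) * (((k' + 1 : ℕ) : ℝ) * (2 * √(W : ℝ) * Real.log W))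
        ≤ (2 * L) ^ (k' + 1) * (((k' + 1 : ℕ) : ℝ) * (2 * √(W : ℝ) * (2 * L))) := by
          gcongr
      _ = (K * L ^ (k' + 2)) * √(N : ℝ) := by
          rw [e1, hK, mul_pow]
          ring
      _ ≤ δ / 2 * (c * x) := h6
      _ ≤ δ / 2 * M := mul_le_mul_of_nonneg_left hMc (by positivity)
  obtain ⟨t1, t2⟩ := abs_le.1 hT
  obtain ⟨t3, t4⟩ := abs_le.1 hdf2
  -- upper
  have u1 : T' ≤ (1 + δ) ^ (k' + 1) * (L ^ (k' + 1) * P) := by
    refine hup.trans ?_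
    rw [← mul_assoc, ← mul_pow]
    exact mul_le_mul_of_nonneg_right (pow_le_pow_left₀ (by linarith) hlW2 _) hP0
  -- lower
  have u2 : (1 - δ) ^ (k' + 1) * (L ^ (k' + 1) * P) ≤ T' + δ * M := by
    rw [← mul_assoc, ← mul_pow]
    refine hlo.trans ?_
    apply add_le_add le_rfl
    have h5 : ((1 - δ) * L) ^ (k' + 1) ≤ L ^ (k' + 1) := by
      apply pow_le_pow_left₀ (mul_nonneg (by linarith) hL0.le)
      nlinarith
    have e : (N : ℝ) ^ (1 - δ) * (N : ℝ) ^ δ = N := by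
      rw [← Real.rpow_add hN0]; norm_num
    have h6 : (((k' + 1 : ℕ) : ℝ) * L ^ (k' + 1)) * (N : ℝ) ^ (1 - δ) ≤ δ * (c * x) := by
      have h7 : (((k' + 1 : ℕ) : ℝ) * L ^ (k' + 1)) * (N : ℝ) ^ (1 - δ) * L ^ A ≤ δ * (c * x) * L ^ A := by
        calc (((k' + 1 : ℕ) : ℝ) * L ^ (k' + 1)) * (N : ℝ) ^ (1 - δ) * L ^ A =
              (((k' + 1 : ℕ) : ℝ) * L ^ (k' + 1 + A)) * (N : ℝ) ^ (1 - δ) := by
              rw [pow_add L (k' + 1) A]; ring
          _ ≤ ((δ * c) * (N : ℝ) ^ δ) * (N : ℝ) ^ (1 - δ) :=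
              mul_le_mul_of_nonneg_right b1 (by positivity)
          _ = δ * (c * ((N : ℝ) ^ (1 - δ) * (N : ℝ) ^ δ)) := by ring
          _ = δ * c * N := by rw [e]; ring
          _ ≤ δ * c * (x * L ^ A) := mul_le_mul_of_nonneg_left hxA (by positivity)
          _ = _ := by ring
      exact le_of_mul_le_mul_right h7 hLA
    calc ((1 - δ) * L) ^ (k' + 1) * (((k' + 1 : ℕ) : ℝ) * (N : ℝ) ^ (1 - δ)) ≤
          L ^ (k' + 1) * (((k' + 1 : ℕ) : ℝ) * (N : ℝ) ^ (1 - δ)) :=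
          mul_le_mul_of_nonneg_right h5 (by positivity)
      _ = (((k' + 1 : ℕ) : ℝ) * L ^ (k' + 1)) * (N : ℝ) ^ (1 - δ) := by ring
      _ ≤ δ * (c * x) := h6
      _ ≤ δ * M := mul_le_mul_of_nonneg_left hMc hδ0.le
  obtain ⟨X, hX⟩ : ∃ X : ℝ, X = L ^ (k' + 1) * P := ⟨_, rfl⟩
  rw [← hX] at u1 u2
  have g1 : (1 - ε) * M ≤ X := by
    have p1 : 0 < (1 + δ) ^ (k' + 1) := by positivity
    have h6 : (1 - ε) * (1 + δ) ^ (k' + 1) * M ≤ (1 - δ) * M := mul_le_mul_of_nonneg_right hδa hM0.le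
    have h7 : (1 + δ) ^ (k' + 1) * ((1 - ε) * M) ≤ (1 + δ) ^ (k' + 1) * X := by
      have : (1 + δ) ^ (k' + 1) * ((1 - ε) * M) = (1 - ε) * (1 + δ) ^ (k' + 1) * M := by ring
      linarith
    exact le_of_mul_le_mul_left h7 p1
  have g2 : X ≤ (1 + ε) * M := by
    have p1 : 0 < (1 - δ) ^ (k' + 1) := by
      have : 0 < 1 - δ := by linarith
      positivity
    have h6 : (1 + 2 * δ) * M ≤ (1 + ε) * (1 - δ) ^ (k' + 1) * M := mul_le_mul_of_nonneg_right hδb hM0.le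
    have h7 : (1 - δ) ^ (k' + 1) * X ≤ (1 - δ) ^ (k' + 1) * ((1 + ε) * M) := by
      have : (1 - δ) ^ (k' + 1) * ((1 + ε) * M) = (1 + ε) * (1 - δ) ^ (k' + 1) * M := by ring
      linarith
    exact le_of_mul_le_mul_left h7 p1
  have hLk : 0 < L ^ (k' + 1) := by positivity
  have e1 : S * (x / L ^ (k' + 1)) = M / L ^ (k' + 1) := by rw [hM]; ring
  have e2 : P = X / L ^ (k' + 1) := by rw [hX]; field_simp
  rw [e1, e2, ← sub_div, abs_div, abs_of_pos hLk, ← mul_div_assoc]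
  apply div_le_div_of_nonneg_right _ hLk.le
  rw [abs_le]
  constructor <;> linarith

/-- an upper bound for the partial products -/
lemma singF_le {k : ℕ} (C H : Fin k → ℤ) (z : ℕ) : singF C H z ≤ ((Vz z)⁻¹) ^ k := by
  rw [L.singF_Fp]
  have h1 : ((Vz z)⁻¹) ^ k = ∏ p ∈ pz z, ((1 - 1 / (p : ℝ)) ^ k)⁻¹ := by
    unfold Vz
    rw [← prod_inv_distrib, ← prod_pow]
    apply prod_congr rfl
    intro p _
    rw [inv_pow]
  rw [h1]
  have hpos : ∀ p ∈ pz z, 0 < (1 - 1 / (p : ℝ)) ^ k := by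
    intro p hp
    have hp2 : (2 : ℝ) ≤ p := by exact_mod_cast (mem_pz.1 hp).2.two_le
    have : 0 < 1 - 1 / (p : ℝ) := by rw [sub_pos, div_lt_one (by linarith)]; linarith
    positivity
  apply prod_le_prod
  · intro p hp
    unfold L.Fp
    apply div_nonneg _ (hpos p hp).le
    have hp0 : (0 : ℝ) < p := by exact_mod_cast (mem_pz.1 hp).2.pos
    rw [sub_nonneg, div_le_one hp0]
    have h1 : nuF C H p ≤ p := by
      unfold nuF
      exact (card_filter_le _ _).trans (by rw [card_range])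
    exact_mod_cast h1
  · intro p hp
    unfold L.Fp
    rw [div_eq_mul_inv]
    apply mul_le_of_le_one_left (inv_nonneg.2 (hpos p hp).le)
    have : 0 ≤ (nuF C H p : ℝ) / p := by positivity
    linarith

/-- all the deterministic parts together -/
theorem det_core (k A B U : ℕ) (hk : 1 ≤ k) (ε : ℝ) (hε : 0 < ε) (E1 : ℕ) (hE1 : U + k + A + 4 ≤ E1) (hU : 1 ≤ U) :
    ∃ n0 : ℕ, ∀ N : ℕ, n0 ≤ N → ∀ z : ℕ, Real.log N ^ E1 ≤ z → (z : ℝ) ≤ Real.log N ^ (E1 + 1) →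
    ∀ x : ℕ, (N : ℝ) ≤ x * Real.log N ^ A →
    ∀ C H : Fin k → ℤ, (∀ i, 1 ≤ C i ∧ C i * x ≤ N) → (∀ i, 0 ≤ H i ∧ H i ≤ (B : ℤ) * N) →
    (∀ i j, i ≠ j → C i * H j ≠ C j * H i) → AdmF C H →
    |∑ n ∈ Icc 1 x, ∏ i, lamI (C i * (n : ℤ) + H i) - singF C H z * x| ≤ x / Real.log N ^ (U + 1) →
    ∃ S : ℝ, 0 < S ∧ Filter.Tendsto (singF C H) Filter.atTop (nhds S) ∧
      |∑ n ∈ Icc 1 x, ∏ i, lamI (C i * (n : ℤ) + H i) - S * x| ≤ x / Real.log N ^ U ∧
      |(cntF C H x : ℝ) - S * (x / Real.log N ^ k)| ≤ ε * (S * (x / Real.log N ^ k)) := by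
  obtain ⟨c, hcdef⟩ : ∃ c : ℝ, c = (1 / (3 * (k : ℝ))) ^ (3 * k) * Real.exp (-(2 * (k : ℝ) ^ 2)) := ⟨_, rfl⟩
  have hkr : (1 : ℝ) ≤ k := by exact_mod_cast hk
  have hc0 : 0 < c := by rw [hcdef]; positivity
  obtain ⟨d0, hd0, n1, h1⟩ := tr_poly k A B hk c ε hc0 hε
  obtain ⟨n2, h2⟩ := Vz_inv_small (E1 + 1)
  obtain ⟨c2, hc2⟩ : ∃ c2 : ℝ, c2 = (k : ℝ) ^ 2 + 4 * (k : ℝ) * ((k : ℝ) * k * 6) := ⟨_, rfl⟩
  obtain ⟨n3, h3⟩ := ev_L' (Real.log (2 * B + 1) + c2 + 3 * k + 1 / (d0 * c) + 16)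
  refine ⟨max n1 (max n2 (max n3 3)), fun N hN z hz1 hz2 x hxA C H hC hH hD hA hmain => ?_⟩
  have a1 := h1 N ((le_max_left _ _).trans hN)
  have a2 := h2 N (((le_max_left _ _).trans (le_max_right _ _)).trans hN)
  have a3 := h3 N ((((le_max_left _ _).trans (le_max_right _ _)).trans (le_max_right _ _)).trans hN)
  have hN3 : 3 ≤ N := (((le_max_right _ _).trans (le_max_right _ _)).trans (le_max_right _ _)).trans hN
  have hNr : (3 : ℝ) ≤ N := by exact_mod_cast hN3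
  have hN0 : (0 : ℝ) < N := by linarith
  obtain ⟨L, hL⟩ : ∃ L : ℝ, L = Real.log (N : ℝ) := ⟨_, rfl⟩
  rw [← hL] at a2 a3 hz1 hz2 hmain ⊢
  have hxA' := hxA
  rw [← hL] at hxA
  have hlB : 0 ≤ Real.log (2 * B + 1) := Real.log_nonneg (by
    have : (0 : ℝ) ≤ B := Nat.cast_nonneg _
    linarith)
  have hc20 : 0 < c2 := by rw [hc2]; positivity
  have hdc : 0 < 1 / (d0 * c) := by positivity
  have hL16 : 16 ≤ L := by linarith
  have hL1 : 1 ≤ L := by linarith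
  have hL0 : 0 < L := by linarith
  have hz0 : (0 : ℝ) < z := lt_of_lt_of_le (by positivity) hz1
  have hzn : 1 ≤ z := by exact_mod_cast hz0
  have hV := a2 z hzn hz2
  have hLA : 0 < L ^ A := by positivity
  have hx0 : (0 : ℝ) < x := by
    by_contra hcon
    have : (x : ℝ) * L ^ A ≤ 0 := mul_nonpos_of_nonpos_of_nonneg (not_lt.1 hcon) hLA.le
    linarith
  have hx1 : 1 ≤ x := by exact_mod_cast hx0
  -- the size of the coefficients
  have hCz : ∀ i, C i ≠ 0 ∧ |C i| ≤ (z : ℤ) := by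
    intro i
    have e1 := (hC i).1
    refine ⟨by omega, ?_⟩
    rw [abs_of_pos (by omega)]
    have e2 : (C i : ℝ) * x ≤ N := by exact_mod_cast (hC i).2
    have e3 : (C i : ℝ) ≤ L ^ A := by
      by_contra hcon
      push Not at hcon
      have : (x : ℝ) * L ^ A < x * C i := mul_lt_mul_of_pos_left hcon hx0
      linarith
    have e4 : L ^ A ≤ L ^ E1 := pow_le_pow_right₀ hL1 (by omega)
    have : (C i : ℝ) ≤ z := e3.trans (e4.trans hz1)
    exact_mod_cast this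
  obtain ⟨S, hS, hS2⟩ := Pool.Agent.Y820.LF.L.sing_limit hk C H z hCz hD hA
  have hlow : ∀ z', c ≤ singF C H z' := fun z' => by
    rw [hcdef]
    exact local_low k hk (nuF C H) z' (fun p hp => Pool.Agent.Y820.LF.L.nuF_le C H hA p (mem_pz.1 hp).2)
      (fun p hp => hA p (mem_pz.1 hp).2)
  have hcS : c ≤ S := ge_of_tendsto' hS hlow
  have hS0 : 0 < S := lt_of_lt_of_le hc0 hcS
  -- the constant
  have hdisc : ∀ i j, (C i * H j - C j * H i).natAbs ≤ (2 * B + 1) * N * N := by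
    intro i j
    have f1 : ∀ i, |C i| ≤ (N : ℤ) := fun i => by
      have e1 := (hC i).1
      rw [abs_of_pos (by omega)]
      have e2 := (hC i).2
      have e3 : C i * 1 ≤ C i * x := mul_le_mul_of_nonneg_left (by exact_mod_cast hx1) (by omega)
      linarith
    have f2 : ∀ i, |H i| ≤ (B : ℤ) * N := fun i => by
      rw [abs_of_nonneg (hH i).1]
      exact (hH i).2
    have e1 : |C i * H j - C j * H i| ≤ (N : ℤ) * (B * N) + N * (B * N) := by
      calc |C i * H j - C j * H i| ≤ |C i * H j| + |C j * H i| := abs_sub _ _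
        _ = |C i| * |H j| + |C j| * |H i| := by rw [abs_mul, abs_mul]
        _ ≤ _ := add_le_add (mul_le_mul (f1 i) (f2 j) (abs_nonneg _) (Int.natCast_nonneg _))
            (mul_le_mul (f1 j) (f2 i) (abs_nonneg _) (Int.natCast_nonneg _))
    have e2 : ((C i * H j - C j * H i).natAbs : ℤ) ≤ (((2 * B + 1) * N * N : ℕ) : ℤ) := by
      rw [Int.natCast_natAbs]
      push_cast
      have : (0 : ℤ) ≤ (N : ℤ) * N := by positivity
      nlinarith
    exact_mod_cast e2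
  have hY1 : 1 ≤ (2 * B + 1) * N * N := Nat.mul_pos (Nat.mul_pos (by omega) (by omega)) (by omega)
  have hcard : ((Pool.Agent.Y820.LF.L.badP C H).card : ℝ) ≤ (k : ℝ) * k * (6 * L) := by
    have h1 := Pool.Agent.Y820.LF.L.card_badP C H ((2 * B + 1) * N * N) hdisc
    have h2 := Pool.Agent.Y820.LF.L.log_le ((2 * B + 1) * N * N) hY1
    have h3 : Real.log (((2 * B + 1) * N * N : ℕ) : ℝ) = Real.log (2 * B + 1) + L + L := by
      push_cast
      rw [Real.log_mul (by positivity) hN0.ne', Real.log_mul (by positivity) hN0.ne', hL]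
    rw [h3] at h2
    have h4 : ((Pool.Agent.Y820.LF.L.badP C H).card : ℝ) ≤ (k : ℝ) * k * (Nat.log 2 ((2 * B + 1) * N * N) : ℝ) := by
      exact_mod_cast h1
    refine h4.trans (mul_le_mul_of_nonneg_left ?_ (by positivity))
    linarith
  have hKc : Pool.Agent.Y820.LF.L.Kc C H ≤ c2 * L := by
    unfold Pool.Agent.Y820.LF.L.Kc
    have h1 : 4 * (k : ℝ) * (Pool.Agent.Y820.LF.L.badP C H).card ≤ 4 * (k : ℝ) * ((k : ℝ) * k * (6 * L)) :=
      mul_le_mul_of_nonneg_left hcard (by positivity)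
    have h2 : (k : ℝ) ^ 2 ≤ (k : ℝ) ^ 2 * L := le_mul_of_one_le_right (by positivity) hL1
    calc (k : ℝ) ^ 2 + 4 * (k : ℝ) * (Pool.Agent.Y820.LF.L.badP C H).card
        ≤ (k : ℝ) ^ 2 * L + 4 * (k : ℝ) * ((k : ℝ) * k * (6 * L)) := by linarith
      _ = c2 * L := by rw [hc2]; ring
  have hKL : Pool.Agent.Y820.LF.L.Kc C H ≤ L ^ 2 := by
    have : c2 ≤ L := by linarith
    nlinarith
  have hL2z : L ^ 2 ≤ z := (pow_le_pow_right₀ hL1 (by omega)).trans hz1
  have h3k : 3 * k ≤ z := by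
    have h6 : (3 * (k : ℝ)) ≤ z := by
      have : L ≤ L ^ 2 := by nlinarith
      linarith
    exact_mod_cast h6
  have hdiff := hS2 z h3k le_rfl (hKL.trans hL2z)
  have hsz : singF C H z ≤ L ^ k := by
    refine (singF_le C H z).trans ?_
    apply pow_le_pow_left₀ _ hV
    apply inv_nonneg.2
    unfold Vz
    apply prod_nonneg
    intro p hp
    have hp2 : (2 : ℝ) ≤ p := by exact_mod_cast (mem_pz.1 hp).2.two_le
    rw [sub_nonneg, div_le_one (by linarith)]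
    linarith
  have hs0 := Pool.Agent.Y820.LF.L.singF_nonneg C H z
  have hdiff2 : |S - singF C H z| ≤ 1 / L ^ (U + 2) := by
    refine hdiff.trans ?_
    calc singF C H z * (Pool.Agent.Y820.LF.L.Kc C H / z) ≤ L ^ k * (L ^ 2 / L ^ E1) := by
          apply mul_le_mul hsz _ (by
            apply div_nonneg _ hz0.le
            unfold Pool.Agent.Y820.LF.L.Kc; positivity) (by positivity)
          apply div_le_div₀ (by positivity) hKL (by positivity) hz1
      _ = L ^ (k + 2) / L ^ E1 := by rw [pow_add]; ring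
      _ ≤ 1 / L ^ (U + 2) := by
          rw [div_le_div_iff₀ (by positivity) (by positivity), one_mul, ← pow_add]
          exact pow_le_pow_right₀ hL1 (by omega)
  obtain ⟨T, hT⟩ : ∃ T : ℝ, T = ∑ n ∈ Icc 1 x, ∏ i, lamI (C i * (n : ℤ) + H i) := ⟨_, rfl⟩
  rw [← hT] at hmain ⊢
  have hfin : |T - S * x| ≤ x / L ^ U := by
    have e : T - S * x = (T - singF C H z * x) - (S - singF C H z) * x := by ring
    rw [e]
    refine (abs_sub _ _).trans ?_
    have h6 : |(S - singF C H z) * x| ≤ 1 / L ^ (U + 2) * x := by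
      rw [abs_mul, abs_of_pos hx0]
      exact mul_le_mul_of_nonneg_right hdiff2 hx0.le
    calc |T - singF C H z * x| + |(S - singF C H z) * x| ≤ x / L ^ (U + 1) + 1 / L ^ (U + 2) * x := add_le_add hmain h6
      _ = (1 / L + 1 / L ^ 2) * (x / L ^ U) := by rw [pow_add, pow_add]; field_simp
      _ ≤ 1 * (x / L ^ U) := by
          apply mul_le_mul_of_nonneg_right _ (by positivity)
          have h7 : 1 / L ≤ 1 / 16 := one_div_le_one_div_of_le (by norm_num) hL16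
          have h8 : 1 / L ^ 2 ≤ 1 / 16 := by
            apply one_div_le_one_div_of_le (by norm_num)
            nlinarith
          linarith
      _ = _ := one_mul _
  refine ⟨S, hS0, hS, hfin, ?_⟩
  have hlast := a1 x hxA' C H hC hH S hcS (by
    rw [← hT]
    refine hfin.trans ?_
    have h7 : x / L ^ U ≤ x / L := div_le_div_of_nonneg_left hx0.le hL0 (le_self_pow₀ hL1 (by omega))
    refine h7.trans ?_
    rw [div_le_iff₀ hL0]
    have h8 : 1 / (d0 * c) ≤ L := by linarith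
    rw [div_le_iff₀ (by positivity)] at h8
    have h9 : 1 ≤ d0 * S * L := by
      refine h8.trans ?_
      have : d0 * c ≤ d0 * S := mul_le_mul_of_nonneg_left hcS hd0.le
      nlinarith
    calc (x : ℝ) = 1 * x := (one_mul _).symm
      _ ≤ (d0 * S * L) * x := mul_le_mul_of_nonneg_right h9 hx0.le
      _ = _ := by ring)
  rw [← hL] at hlast
  exact hlast

end Pool.Agent.N699.ST
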