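import Pool.Agent.N469.PT.Ws
import Pool.Agent.N699.ST.Det

set_option autoImplicit false

/-! Linear forms whose constants are random: replacing the von Mangoldt function by the model, and the exceptional vectors. -/

namespace Pool.Agent.N699.ST
open Finset
open Pool.Agent.H373R2.T7
open Pool.Agent.W93.TD

/-- an estimate for all the integers gives one for the multiples of `C` -/
lemma one_mult (N x C : ℕ) (hC : 1 ≤ C) (hCx : C * x ≤ N) (Ω : Finset ℕ) (p : ℕ → ℝ) (g : ℤ → ℕ → ℝ) (K δ : ℝ) (hK : 0 ≤ K)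
    (hone : ∀ G : ℕ → ℝ, (∀ n ∈ Icc 1 N, |G n| ≤ K) → ∑ v ∈ Ω, p v * |∑ n ∈ Icc 1 N, G n * g (n : ℤ) v| ≤ δ)
    (G : ℕ → ℝ) (hG : ∀ n ∈ Icc 1 x, |G n| ≤ K) :
    ∑ v ∈ Ω, p v * |∑ n ∈ Icc 1 x, G n * g ((C : ℤ) * (n : ℤ)) v| ≤ δ := by
  classical
  refine le_trans (le_of_eq ?_) (hone (fun m => if C ∣ m ∧ m / C ≤ x then G (m / C) else 0) (by
    intro m hm
    rw [mem_Icc] at hm
    split_ifs with h
    · apply hG
      rw [mem_Icc]
      exact ⟨(Nat.one_le_div_iff (by omega)).2 (Nat.le_of_dvd (by omega) h.1), h.2⟩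
    · rw [abs_zero]; exact hK))
  apply sum_congr rfl
  intro v _
  congr 2
  have h1 : ∀ m ∈ Icc 1 N, (if C ∣ m ∧ m / C ≤ x then G (m / C) else 0) * g (m : ℤ) v =
      if C ∣ m ∧ m / C ≤ x then G (m / C) * g (m : ℤ) v else 0 := by
    intro m _
    split_ifs
    · rfl
    · rw [zero_mul]
  rw [sum_congr rfl h1, ← sum_filter]
  refine sum_nbij' (fun n => C * n) (fun m => m / C) ?_ ?_ ?_ ?_ ?_
  · intro n hn
    rw [mem_Icc] at hn
    rw [mem_filter, mem_Icc]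
    refine ⟨⟨Nat.mul_pos (by omega) (by omega), (Nat.mul_le_mul_left _ hn.2).trans hCx⟩, dvd_mul_right _ _, ?_⟩
    rw [Nat.mul_div_cancel_left _ (by omega)]
    exact hn.2
  · intro m hm
    rw [mem_filter, mem_Icc] at hm
    rw [mem_Icc]
    exact ⟨(Nat.one_le_div_iff (by omega)).2 (Nat.le_of_dvd (by omega) hm.2.1), hm.2.2⟩
  · intro n _
    exact Nat.mul_div_cancel_left _ (by omega)
  · intro m hm
    rw [mem_filter, mem_Icc] at hm
    exact Nat.mul_div_cancel' hm.2.1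
  · intro n _
    rw [Nat.mul_div_cancel_left _ (by omega)]
    push_cast
    rfl

/-- replacing the von Mangoldt function by the sieve model in linear forms -/
theorem lf_diff {s : ℕ} (N A z x : ℕ) (U : ℕ) (C κκ c : Fin s → ℕ) (Ω : Fin s → Finset ℕ) (p : Fin s → ℕ → ℝ)
    (hp0 : ∀ i, ∀ v ∈ Ω i, 0 ≤ p i v) (hp1 : ∀ i, ∑ v ∈ Ω i, p i v = 1)
    (hA : ∀ i, ∀ v ∈ Ω i, c i + κκ i * v ≤ A * N) (hC : ∀ i, 1 ≤ C i ∧ C i * x ≤ N)
    (hone : ∀ i, ∀ K : ℝ, 0 < K → ∀ G : ℕ → ℝ, (∀ n ∈ Icc 1 N, |G n| ≤ K) →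
      ∑ v ∈ Ω i, p i v * |∑ n ∈ Icc 1 N, G n * (lamI ((n : ℤ) + ((c i + κκ i * v : ℕ) : ℤ)) - lamzI z ((n : ℤ) + ((c i + κκ i * v : ℕ) : ℤ)))| ≤
          K * (N / Real.log N ^ (U + s + 2)))
    (hN : 1 ≤ N) (hL1 : 1 ≤ Real.log N) (hLA : Real.log ((A + 1 : ℕ) : ℝ) ≤ Real.log N)
    (hbig : (s : ℝ) * 2 ^ s ≤ Real.log N) (hV : (Vz z)⁻¹ ≤ Real.log N) (h : ℕ → ℝ) (hh : ∀ n ∈ Icc 1 x, |h n| ≤ Real.log N) :
    ∑ m ∈ Fintype.piFinset Ω, (∏ i, p i (m i)) * |∑ n ∈ Icc 1 x, h n *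
        (∏ i, lamI ((C i : ℤ) * (n : ℤ) + ((c i + κκ i * m i : ℕ) : ℤ)) -
          ∏ i, lamzI z ((C i : ℤ) * (n : ℤ) + ((c i + κκ i * m i : ℕ) : ℤ)))| ≤
        N / Real.log N ^ U := by
  classical
  obtain ⟨L, hL⟩ : ∃ L, L = Real.log (N : ℝ) := ⟨_, rfl⟩
  rw [← hL] at hL1 hLA hbig hV hh ⊢
  simp only [← hL] at hone
  have hL0 : 0 < L := by linarith
  have hN0 : (0 : ℝ) < N := by exact_mod_cast hN
  have hX1 : 1 ≤ (A + 1) * N := Nat.mul_pos (by omega) hN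
  have hlogX : Real.log (((A + 1) * N : ℕ) : ℝ) ≤ 2 * L := by
    rw [Nat.cast_mul, Real.log_mul (by positivity) hN0.ne', ← hL]
    linarith
  have hup : ∀ i, ∀ n ∈ Icc 1 x, ∀ v ∈ Ω i, (((C i : ℤ) * (n : ℤ) + ((c i + κκ i * v : ℕ) : ℤ) : ℤ) : ℝ) ≤ (((A + 1) * N : ℕ) : ℝ) := by
    intro i n hn v hv
    rw [mem_Icc] at hn
    have h4 := hA i v hv
    have h6 : C i * n ≤ C i * x := Nat.mul_le_mul_left _ hn.2
    have h7 := (hC i).2
    have h5 : C i * n + (c i + κκ i * v) ≤ (A + 1) * N := by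
      rw [add_mul, one_mul]
      omega
    exact_mod_cast h5
  have key := tele_w x Ω p hp0 hp1 (fun i n v => lamI ((C i : ℤ) * (n : ℤ) + ((c i + κκ i * v : ℕ) : ℤ)))
    (fun i n v => lamzI z ((C i : ℤ) * (n : ℤ) + ((c i + κκ i * v : ℕ) : ℤ)))
    (2 * L) ((N : ℝ) / L ^ (U + s + 2)) (by linarith) (by positivity) (by
      intro i n hn v hv
      rw [abs_of_nonneg (lamI_nonneg _)]
      exact (lamI_le _ _ (by exact_mod_cast hX1) (hup i n hn v hv)).trans hlogX) (by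
      intro i n hn v hv
      rw [abs_of_nonneg (lamzI_nonneg _ _)]
      exact (lamzI_le z _).trans (by linarith)) (by
      intro i K hK G hG
      exact one_mult N x (C i) (hC i).1 (hC i).2 (Ω i) (p i)
        (fun m v => lamI (m + ((c i + κκ i * v : ℕ) : ℤ)) - lamzI z (m + ((c i + κκ i * v : ℕ) : ℤ)))
        K _ hK.le (fun G' hG' => hone i K hK G' hG') G hG)
    univ L hL0 (fun n _ => h n) (by
      intro n hn m _
      exact hh n hn) (by
      intro n m v i _; rfl)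
  rw [card_univ, Fintype.card_fin] at key
  refine key.trans ?_
  calc (s : ℝ) * (L * (2 * L) ^ s * (N / L ^ (U + s + 2))) = ((s : ℝ) * 2 ^ s) * (N / L ^ U * (L ^ (s + 1) / L ^ (s + 2))) := by
        rw [mul_pow, show U + s + 2 = U + (s + 2) by ring, pow_add L U, pow_succ L s]
        field_simp
    _ ≤ L * (N / L ^ U * (L ^ (s + 1) / L ^ (s + 2))) := mul_le_mul_of_nonneg_right hbig (by positivity)
    _ = N / L ^ U := by
        rw [show s + 2 = (s + 1) + 1 by ring, pow_succ L (s + 1)]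
        field_simp

/-- an event which determines one coordinate -/
lemma degen {s : ℕ} (Ω : Fin s → Finset ℕ) (p : Fin s → ℕ → ℝ)
    (hp0 : ∀ i, ∀ v ∈ Ω i, 0 ≤ p i v) (hp1 : ∀ i, ∑ v ∈ Ω i, p i v = 1) (θ : ℝ) (hθ0 : 0 ≤ θ) (hθ : ∀ i, ∀ v ∈ Ω i, p i v ≤ θ)
    (i : Fin s) (P : (Fin s → ℕ) → Prop) [DecidablePred P]
    (hP : ∀ m ∈ Fintype.piFinset Ω, ∀ v ∈ Ω i, ∀ v' ∈ Ω i, P (Function.update m i v) → P (Function.update m i v') → v = v') :
    ∑ m ∈ Fintype.piFinset Ω, (∏ i, p i (m i)) * (if P m then (1 : ℝ) else 0) ≤ θ := by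
  have h1 := avg_w Ω p hp1 i (fun m => if P m then (1 : ℝ) else 0)
  rw [← h1]
  have h2 : ∀ m ∈ Fintype.piFinset Ω, (∏ j, p j (m j)) *
      ∑ v ∈ Ω i, p i v * (if P (Function.update m i v) then (1 : ℝ) else 0) ≤ (∏ j, p j (m j)) * θ := by
    intro m hm
    apply mul_le_mul_of_nonneg_left _ (prod_nonneg fun j _ => hp0 j _ (Fintype.mem_piFinset.1 hm j))
    have h3 : ∀ v ∈ Ω i, p i v * (if P (Function.update m i v) then (1 : ℝ) else 0) =
        if P (Function.update m i v) then p i v else 0 := by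
      intro v _
      split_ifs <;> simp
    rw [sum_congr rfl h3]
    by_cases h4 : ∃ v ∈ Ω i, P (Function.update m i v)
    · obtain ⟨v0, hv0, hv1⟩ := h4
      rw [sum_eq_single_of_mem v0 hv0, if_pos hv1]
      · exact hθ i v0 hv0
      · intro v hv hne
        rw [if_neg]
        intro hv2
        exact hne (hP m hm v hv v0 hv0 hv2 hv1)
    · push Not at h4
      rw [sum_eq_zero]
      · exact hθ0
      · intro v hv
        rw [if_neg (h4 v hv)]
  refine (sum_le_sum h2).trans (le_of_eq ?_)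
  rw [← sum_mul, total_w Ω p hp1, one_mul]

open Classical in
/-- the weighted number of bad vectors -/
theorem bad_gen {s : ℕ} (C κκ c : Fin s → ℕ) (hC : ∀ i, 1 ≤ C i) (hκ : ∀ i, 1 ≤ κκ i) (Ω : Fin s → Finset ℕ) (p : Fin s → ℕ → ℝ)
    (hp0 : ∀ i, ∀ v ∈ Ω i, 0 ≤ p i v) (hp1 : ∀ i, ∑ v ∈ Ω i, p i v = 1) (θ : ℝ) (hθ0 : 0 ≤ θ) (hθ : ∀ i, ∀ v ∈ Ω i, p i v ≤ θ)
    (DD : (Fin s → ℕ) → ℝ) (hDD0 : ∀ m, 0 ≤ DD m) (Good : (Fin s → ℕ) → Prop) (T T' : ℝ) (hT : 0 < T)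
    (hdet : ∀ m ∈ Fintype.piFinset Ω, (∀ i, c i + κκ i * m i ≠ 0) →
      (∀ i j, j ≠ i → C j * (c i + κκ i * m i) ≠ C i * (c j + κκ j * m j)) → DD m ≤ T → Good m)
    (hD : ∑ m ∈ Fintype.piFinset Ω, (∏ i, p i (m i)) * DD m ≤ T') :
    ∑ m ∈ Fintype.piFinset Ω, (if ¬ Good m then ∏ i, p i (m i) else 0) ≤ ((s : ℝ) + s * s) * θ + T' / T := by
  have hdeg1 : ∀ i : Fin s, ∑ m ∈ Fintype.piFinset Ω, (∏ i, p i (m i)) * (if c i + κκ i * m i = 0 then (1 : ℝ) else 0) ≤ θ :=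
    fun i => degen Ω p hp0 hp1 θ hθ0 hθ i (fun m => c i + κκ i * m i = 0) (fun m _ v _ v' _ h1 h2 => by
      simp only [Function.update_self] at h1 h2
      exact Nat.eq_of_mul_eq_mul_left (hκ i) (by omega))
  have hdeg2 : ∀ i j : Fin s, ∑ m ∈ Fintype.piFinset Ω, (∏ i, p i (m i)) *
      (if j ≠ i ∧ C j * (c i + κκ i * m i) = C i * (c j + κκ j * m j) then (1 : ℝ) else 0) ≤ θ := by
    intro i j
    by_cases hij : j ≠ i
    · refine degen Ω p hp0 hp1 θ hθ0 hθ i (fun m => j ≠ i ∧ C j * (c i + κκ i * m i) = C i * (c j + κκ j * m j)) (fun m _ v _ v' _ h1 h2 => ?_)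
      simp only [Function.update_self, Function.update_of_ne hij] at h1 h2
      have h3 := Nat.eq_of_mul_eq_mul_left (hC j) (h1.2.trans h2.2.symm)
      exact Nat.eq_of_mul_eq_mul_left (hκ i) (by omega)
    · simp only [hij, false_and, if_false, mul_zero, sum_const_zero]
      exact hθ0
  obtain ⟨K, hK⟩ : ∃ K : ℝ, K = 1 / T := ⟨_, rfl⟩
  have hK0 : 0 ≤ K := by rw [hK]; positivity
  have hpt : ∀ m ∈ Fintype.piFinset Ω, (if ¬ Good m then ∏ i, p i (m i) else 0) ≤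
      ∑ i : Fin s, (∏ i, p i (m i)) * (if c i + κκ i * m i = 0 then (1 : ℝ) else 0) +
      ∑ i : Fin s, ∑ j : Fin s, (∏ i, p i (m i)) * (if j ≠ i ∧ C j * (c i + κκ i * m i) = C i * (c j + κκ j * m j) then (1 : ℝ) else 0) +
      K * ((∏ i, p i (m i)) * DD m) := by
    intro m hm
    have hm' := Fintype.mem_piFinset.1 hm
    obtain ⟨P, hP⟩ : ∃ P, P = ∏ i, p i (m i) := ⟨_, rfl⟩
    rw [← hP]
    have hP0 : 0 ≤ P := by rw [hP]; exact prod_nonneg fun j _ => hp0 j _ (hm' j)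
    have t1 : ∀ i ∈ (univ : Finset (Fin s)), 0 ≤ P * (if c i + κκ i * m i = 0 then (1 : ℝ) else 0) := fun i _ =>
      mul_nonneg hP0 (by split_ifs <;> norm_num)
    have t2 : ∀ i ∈ (univ : Finset (Fin s)), ∀ j ∈ (univ : Finset (Fin s)),
        0 ≤ P * (if j ≠ i ∧ C j * (c i + κκ i * m i) = C i * (c j + κκ j * m j) then (1 : ℝ) else 0) :=
      fun i _ j _ => mul_nonneg hP0 (by split_ifs <;> norm_num)
    have t1' := sum_nonneg t1
    have t2' := sum_nonneg fun i hi => sum_nonneg (t2 i hi)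
    have t3 : 0 ≤ K * (P * DD m) := mul_nonneg hK0 (mul_nonneg hP0 (hDD0 m))
    by_cases hEω : Good m
    · rw [if_neg (not_not.2 hEω)]
      linarith
    rw [if_pos hEω]
    by_cases q1 : ∃ i, c i + κκ i * m i = 0
    · obtain ⟨i, hi⟩ := q1
      have q2 := single_le_sum t1 (mem_univ i)
      rw [if_pos hi, mul_one] at q2
      linarith
    by_cases q3 : ∃ i j, j ≠ i ∧ C j * (c i + κκ i * m i) = C i * (c j + κκ j * m j)
    · obtain ⟨i, j, hij⟩ := q3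
      have q2 := single_le_sum (f := fun j => P * (if j ≠ i ∧ C j * (c i + κκ i * m i) = C i * (c j + κκ j * m j) then (1 : ℝ) else 0)) (t2 i (mem_univ i)) (mem_univ j)
      have q4 := single_le_sum (f := fun i => ∑ j : Fin s, P * (if j ≠ i ∧ C j * (c i + κκ i * m i) = C i * (c j + κκ j * m j) then (1 : ℝ) else 0))
        (fun i hi => sum_nonneg (t2 i hi)) (mem_univ i)
      rw [if_pos hij, mul_one] at q2
      linarith
    push Not at q1 q3
    have q5 : T < DD m := by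
      by_contra hcon
      push Not at hcon
      exact hEω (hdet m hm q1 (fun i j hij => q3 i j hij) hcon)
    have q6 : 1 ≤ K * DD m := by
      rw [hK, one_div, ← div_eq_inv_mul, le_div_iff₀ hT, one_mul]
      exact q5.le
    have q7 : P ≤ K * (P * DD m) := by
      calc P = P * 1 := (mul_one _).symm
        _ ≤ P * (K * DD m) := mul_le_mul_of_nonneg_left q6 hP0
        _ = _ := by ring
    linarith
  refine (sum_le_sum hpt).trans ?_
  rw [sum_add_distrib, sum_add_distrib, ← mul_sum]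
  have g1 : ∑ m ∈ Fintype.piFinset Ω, ∑ i : Fin s, (∏ i, p i (m i)) * (if c i + κκ i * m i = 0 then (1 : ℝ) else 0) ≤ s * θ := by
    rw [sum_comm]
    refine (sum_le_sum fun i _ => hdeg1 i).trans (le_of_eq ?_)
    rw [sum_const, card_univ, Fintype.card_fin, nsmul_eq_mul]
  have g2 : ∑ m ∈ Fintype.piFinset Ω, ∑ i : Fin s, ∑ j : Fin s, (∏ i, p i (m i)) *
      (if j ≠ i ∧ C j * (c i + κκ i * m i) = C i * (c j + κκ j * m j) then (1 : ℝ) else 0) ≤ (s * s) * θ := by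
    rw [sum_comm]
    have g3 : ∀ i ∈ (univ : Finset (Fin s)), ∑ m ∈ Fintype.piFinset Ω, ∑ j : Fin s, (∏ i, p i (m i)) *
      (if j ≠ i ∧ C j * (c i + κκ i * m i) = C i * (c j + κκ j * m j) then (1 : ℝ) else 0) ≤ s * θ := by
      intro i _
      rw [sum_comm]
      refine (sum_le_sum fun j _ => hdeg2 i j).trans (le_of_eq ?_)
      rw [sum_const, card_univ, Fintype.card_fin, nsmul_eq_mul]
    refine (sum_le_sum g3).trans (le_of_eq ?_)
    rw [sum_const, card_univ, Fintype.card_fin, nsmul_eq_mul]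
    ring
  have g3 : K * ∑ m ∈ Fintype.piFinset Ω, (∏ i, p i (m i)) * DD m ≤ T' / T := by
    refine (mul_le_mul_of_nonneg_left hD hK0).trans (le_of_eq ?_)
    rw [hK]
    ring
  have g4 : ((s : ℝ) + s * s) * θ = s * θ + (s * s) * θ := by ring
  linarith

end Pool.Agent.N699.ST
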