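import Pool.Agent.N699.ST.Frm

set_option autoImplicit false

/-! Prime values of linear forms whose constants are random: all slopes up to a power of the logarithm at the same time. -/

namespace Pool.Agent.N699.ST
open Finset
open Pool.Agent.H373R2.T7
open Pool.Agent.W93.TD
open Pool.Agent.Y820.LF
open Pool.Agent.N469.PT (OneLaw)

/-- the coefficients, with the form `n` -/
def Cn {s : ℕ} (C : Fin s → ℕ) : Fin (s + 1) → ℤ := C1 (fun i => (C i : ℤ))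

/-- the constants, with the form `n` -/
def Hn {s : ℕ} (a : Fin s → ℕ) : Fin (s + 1) → ℤ := H1 (fun i => (a i : ℤ))

/-- the formula of Hardy and Littlewood for the forms `n, C i n + a i`, `n ≤ x` -/
def Frm {s : ℕ} (ε : ℝ) (U N x : ℕ) (C a : Fin s → ℕ) : Prop :=
  AdmF (Cn C) (Hn a) → ∃ S : ℝ, 0 < S ∧ Filter.Tendsto (singF (Cn C) (Hn a)) Filter.atTop (nhds S) ∧
    |∑ n ∈ Icc 1 x, ∏ i, lamI (Cn C i * (n : ℤ) + Hn a i) - S * x| ≤ x / Real.log N ^ U ∧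
    |(cntF (Cn C) (Hn a) x : ℝ) - S * (x / Real.log N ^ (s + 1))| ≤ ε * (S * (x / Real.log N ^ (s + 1)))

/-- one scale: sizes of `N / j` -/
lemma size_x (A : ℕ) : ∃ n0 : ℕ, ∀ N : ℕ, n0 ≤ N → ∀ j : ℕ, 1 ≤ j → (j : ℝ) ≤ Real.log N ^ A →
    (N : ℝ) ≤ ((N / j : ℕ) : ℝ) * Real.log N ^ (A + 1) ∧ √(N : ℝ) ≤ ((N / j : ℕ) : ℝ) ∧ j * (N / j) ≤ N := by
  obtain ⟨n1, h1⟩ := ev_log' A 2
  obtain ⟨n2, h2⟩ := ev_L' 2
  refine ⟨max n1 (max n2 4), fun N hN j hj1 hj2 => ?_⟩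
  have a1 := h1 N ((le_max_left _ _).trans hN)
  have a2 := h2 N (((le_max_left _ _).trans (le_max_right _ _)).trans hN)
  have hN4 : 4 ≤ N := ((le_max_right _ _).trans (le_max_right _ _)).trans hN
  have hNr : (4 : ℝ) ≤ N := by exact_mod_cast hN4
  obtain ⟨L, hL⟩ : ∃ L : ℝ, L = Real.log (N : ℝ) := ⟨_, rfl⟩
  rw [← hL] at a1 a2 hj2 ⊢
  have hsq : √(N : ℝ) * √(N : ℝ) = N := Real.mul_self_sqrt (by linarith)
  have hs1 : 1 ≤ √(N : ℝ) := by
    rw [Real.one_le_sqrt]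
    linarith
  have hj0 : (0 : ℝ) < j := by exact_mod_cast hj1
  have hjs : 2 * (j : ℝ) ≤ √(N : ℝ) := by linarith
  have hjN : 2 * j ≤ N := by
    have : 2 * (j : ℝ) ≤ N := by nlinarith
    exact_mod_cast this
  have hx : (N : ℝ) ≤ 2 * j * ((N / j : ℕ) : ℝ) := by
    have h3 : N < j * (N / j) + j := by
      have := Nat.div_add_mod N j
      have := Nat.mod_lt N hj1
      omega
    have h4 : 1 ≤ N / j := (Nat.one_le_div_iff hj1).2 (by omega)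
    have h5 : j ≤ j * (N / j) := Nat.le_mul_of_pos_right _ h4
    have h6 : N ≤ 2 * j * (N / j) := by
      have : 2 * j * (N / j) = j * (N / j) + j * (N / j) := by ring
      omega
    exact_mod_cast h6
  have hx0 : (0 : ℝ) ≤ ((N / j : ℕ) : ℝ) := Nat.cast_nonneg _
  refine ⟨?_, ?_, Nat.mul_div_le N j⟩
  · calc (N : ℝ) ≤ 2 * j * ((N / j : ℕ) : ℝ) := hx
      _ ≤ L * L ^ A * ((N / j : ℕ) : ℝ) := by
          apply mul_le_mul_of_nonneg_right _ hx0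
          exact mul_le_mul a2 hj2 hj0.le (by linarith)
      _ = _ := by rw [pow_succ]; ring
  · have h7 : √(N : ℝ) * √(N : ℝ) ≤ √(N : ℝ) * ((N / j : ℕ) : ℝ) := by
      rw [hsq]
      exact hx.trans (mul_le_mul_of_nonneg_right hjs hx0)
    exact le_of_mul_le_mul_left h7 (by linarith)

/-- the deterministic part for one scale and one vector of slopes -/
lemma det_frm (s : ℕ) (hs : 1 ≤ s) (A B U : ℕ) (hU : 1 ≤ U) (ε : ℝ) (hε : 0 < ε) (E1 : ℕ) (hE1 : U + (s + 1) + (A + 1) + 4 ≤ E1) :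
    ∃ n0 : ℕ, ∀ N : ℕ, n0 ≤ N → ∀ z : ℕ, Real.log N ^ E1 ≤ z → (z : ℝ) ≤ Real.log N ^ (E1 + 1) →
    ∀ j : ℕ, 1 ≤ j → (j : ℝ) ≤ Real.log N ^ A → ∀ C : Fin s → ℕ, (∀ i, 1 ≤ C i ∧ C i ≤ j) →
    ∀ a : Fin s → ℕ, (∀ i, a i ≤ B * N) → (∀ i, a i ≠ 0) → (∀ i i', i' ≠ i → C i' * a i ≠ C i * a i') →
    |∑ n ∈ Icc 1 (N / j), ArithmeticFunction.vonMangoldt n *
        (∏ i, lamI ((C i : ℤ) * (n : ℤ) + ((a i : ℕ) : ℤ)) - ∏ i, lamzI z ((C i : ℤ) * (n : ℤ) + ((a i : ℕ) : ℤ)))| ≤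
      (1 / 2) * (((N / j : ℕ) : ℝ) / Real.log N ^ (U + 1)) → Frm ε U N (N / j) C a := by
  obtain ⟨n1, h1⟩ := size_x A
  obtain ⟨n2, h2⟩ := det_core (s + 1) (A + 1) B U (by omega) ε hε E1 (by omega) hU
  obtain ⟨n3, h3⟩ := t_main1 s (E1 + 2) (U + 2) hs
  obtain ⟨n4, h4⟩ := ev_L' (2 ^ (E1 + 2) + 2 ^ (U + 3))
  refine ⟨max (max n1 n2) (max (n3 ^ 2 + 4) n4), fun N hN z hz1 hz2 j hj1 hj2 C hC a haB ha0 hane hdiff hadm => ?_⟩
  obtain ⟨hx1, hx2, hx3⟩ := h1 N (((le_max_left _ _).trans (le_max_left _ _)).trans hN) j hj1 hj2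
  have a2 := h2 N (((le_max_right _ _).trans (le_max_left _ _)).trans hN) z hz1 hz2 (N / j) hx1
  have a4 := h4 N (((le_max_right _ _).trans (le_max_right _ _)).trans hN)
  have hNn3 : n3 ^ 2 + 4 ≤ N := ((le_max_left _ _).trans (le_max_right _ _)).trans hN
  obtain ⟨x, hx⟩ : ∃ x, x = N / j := ⟨_, rfl⟩
  rw [← hx] at hx1 hx2 hx3 a2 hdiff ⊢
  have hNr : (4 : ℝ) ≤ N := by exact_mod_cast (by omega : 4 ≤ N)
  have hN0 : (0 : ℝ) < N := by linarith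
  have hsq : √(N : ℝ) * √(N : ℝ) = N := Real.mul_self_sqrt (by linarith)
  have hs1 : 1 ≤ √(N : ℝ) := by
    rw [Real.one_le_sqrt]
    linarith
  have hx0 : (0 : ℝ) < x := by linarith
  have hxn : 1 ≤ x := by exact_mod_cast hx0
  have hxn3 : n3 ≤ x := by
    have h5 : (n3 : ℝ) ≤ √(N : ℝ) := by
      apply Real.le_sqrt_of_sq_le
      exact_mod_cast (by omega : n3 ^ 2 ≤ N)
    exact_mod_cast h5.trans hx2
  obtain ⟨L, hL⟩ : ∃ L : ℝ, L = Real.log (N : ℝ) := ⟨_, rfl⟩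
  obtain ⟨l, hl⟩ : ∃ l : ℝ, l = Real.log (x : ℝ) := ⟨_, rfl⟩
  have hlL : L ≤ 2 * l := by
    have h5 : Real.log (√(N : ℝ)) ≤ l := by rw [hl]; exact Real.log_le_log (by linarith) hx2
    have h6 : Real.log (√(N : ℝ)) = L / 2 := by rw [Real.log_sqrt hN0.le, hL]
    linarith
  rw [← hL] at a4 hz2 hdiff
  have hp1 : (0 : ℝ) < 2 ^ (U + 3) := by positivity
  have hp2 : (0 : ℝ) < 2 ^ (E1 + 2) := by positivity
  have hL0 : 0 < L := by linarith
  have hl0 : 0 < l := by linarith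
  have hz0 : 1 ≤ z := by
    have hE : (1 : ℝ) ≤ 2 ^ (E1 + 2) := one_le_pow₀ (by norm_num)
    have h5 : 1 ≤ L := by linarith
    have : (1 : ℝ) ≤ z := by
      rw [← hL] at hz1
      exact (one_le_pow₀ h5).trans hz1
    exact_mod_cast this
  have hzx : (z : ℝ) ≤ l ^ (E1 + 2) := by
    refine hz2.trans ?_
    calc L ^ (E1 + 1) ≤ (2 * l) ^ (E1 + 1) := pow_le_pow_left₀ hL0.le hlL _
      _ = 2 ^ (E1 + 1) * l ^ (E1 + 1) := mul_pow _ _ _
      _ ≤ l * l ^ (E1 + 1) := by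
          apply mul_le_mul_of_nonneg_right _ (by positivity)
          have : (2 : ℝ) ^ (E1 + 2) = 2 * 2 ^ (E1 + 1) := by ring
          linarith
      _ = _ := by ring
  have hmod := h3 x hxn3 z hz0 (by rw [← hl]; exact hzx) (fun i => (C i : ℤ)) (fun i => (a i : ℤ)) (by
    intro i
    have h5 := (hC i).1
    have h6 : 1 ≤ C i * x := Nat.mul_pos h5 hxn
    refine ⟨?_, ?_⟩
    · have : (1 : ℤ) ≤ C i := by exact_mod_cast h5
      have h7 : (0 : ℤ) ≤ a i := by positivity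
      linarith
    · have : (1 : ℤ) ≤ (C i : ℤ) * x := by exact_mod_cast h6
      have h7 : (0 : ℤ) ≤ a i := by positivity
      linarith) hadm
  rw [← hl] at hmod
  have herr : (x : ℝ) / l ^ (U + 2) ≤ (1 / 2) * (x / L ^ (U + 1)) := by
    rw [div_le_iff₀ (by positivity)]
    have h5 : L ^ (U + 2) ≤ 2 ^ (U + 2) * l ^ (U + 2) := by
      rw [← mul_pow]
      exact pow_le_pow_left₀ hL0.le hlL _
    have h6 : (2 : ℝ) ^ (U + 3) = 2 * 2 ^ (U + 2) := by ring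
    have h7 : L ^ (U + 2) = L * L ^ (U + 1) := by ring
    have h8 : 1 / 2 * ((x : ℝ) / L ^ (U + 1)) * l ^ (U + 2) = x * (1 / 2 * (l ^ (U + 2) / L ^ (U + 1))) := by ring
    rw [h8]
    apply le_mul_of_one_le_right hx0.le
    have h9 : 2 ≤ l ^ (U + 2) / L ^ (U + 1) := by
      rw [le_div_iff₀ (by positivity)]
      have h10 : 2 * L ^ (U + 1) * 2 ^ (U + 2) ≤ l ^ (U + 2) * 2 ^ (U + 2) := by
        calc 2 * L ^ (U + 1) * 2 ^ (U + 2) = 2 ^ (U + 3) * L ^ (U + 1) := by rw [h6]; ring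
          _ ≤ L * L ^ (U + 1) := by
              apply mul_le_mul_of_nonneg_right _ (by positivity)
              linarith
          _ = L ^ (U + 2) := h7.symm
          _ ≤ 2 ^ (U + 2) * l ^ (U + 2) := h5
          _ = _ := by ring
      exact le_of_mul_le_mul_right h10 (by positivity)
    linarith
  -- the factor of the form `n`
  have hfac : ∀ n ∈ Icc 1 x, ∏ i, lamI (Cn C i * (n : ℤ) + Hn a i) =
      ArithmeticFunction.vonMangoldt n * ∏ i, lamI ((C i : ℤ) * (n : ℤ) + (a i : ℤ)) := by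
    intro n hn
    have hn1 := (mem_Icc.1 hn).1
    rw [Fin.prod_univ_succ]
    have e0 : lamI (Cn C 0 * (n : ℤ) + Hn a 0) = ArithmeticFunction.vonMangoldt n := by
      show lamI (1 * (n : ℤ) + 0) = _
      unfold lamI
      rw [if_pos (by omega), one_mul, add_zero, Int.toNat_natCast]
    rw [e0]
    rfl
  have hall : |∑ n ∈ Icc 1 x, ∏ i, lamI (Cn C i * (n : ℤ) + Hn a i) - singF (Cn C) (Hn a) z * x| ≤ x / L ^ (U + 1) := by
    rw [sum_congr rfl hfac]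
    have e1 : ∑ n ∈ Icc 1 x, ArithmeticFunction.vonMangoldt n * ∏ i, lamI ((C i : ℤ) * (n : ℤ) + (a i : ℤ)) - singF (Cn C) (Hn a) z * x =
        ∑ n ∈ Icc 1 x, ArithmeticFunction.vonMangoldt n *
        (∏ i, lamI ((C i : ℤ) * (n : ℤ) + ((a i : ℕ) : ℤ)) - ∏ i, lamzI z ((C i : ℤ) * (n : ℤ) + ((a i : ℕ) : ℤ))) +
        (∑ n ∈ Icc 1 x, ArithmeticFunction.vonMangoldt n * ∏ i, lamzI z ((C i : ℤ) * (n : ℤ) + (a i : ℤ)) - singF (Cn C) (Hn a) z * x) := by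
      have e2 : ∑ n ∈ Icc 1 x, ArithmeticFunction.vonMangoldt n *
        (∏ i, lamI ((C i : ℤ) * (n : ℤ) + ((a i : ℕ) : ℤ)) - ∏ i, lamzI z ((C i : ℤ) * (n : ℤ) + ((a i : ℕ) : ℤ))) =
        ∑ n ∈ Icc 1 x, ArithmeticFunction.vonMangoldt n * ∏ i, lamI ((C i : ℤ) * (n : ℤ) + (a i : ℤ)) -
        ∑ n ∈ Icc 1 x, ArithmeticFunction.vonMangoldt n * ∏ i, lamzI z ((C i : ℤ) * (n : ℤ) + (a i : ℤ)) := by
        rw [← sum_sub_distrib]
        apply sum_congr rfl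
        intro n _
        ring
      rw [e2]
      ring
    rw [e1]
    refine (abs_add_le _ _).trans ?_
    have e3 : (x : ℝ) / L ^ (U + 1) = 1 / 2 * (x / L ^ (U + 1)) + 1 / 2 * (x / L ^ (U + 1)) := by ring
    rw [e3]
    exact add_le_add hdiff (hmod.trans herr)
  exact a2 (Cn C) (Hn a) (by
    intro i
    refine Fin.cases ?_ (fun i => ?_) i
    · show (1 : ℤ) ≤ 1 ∧ (1 : ℤ) * (x : ℤ) ≤ (N : ℤ)
      refine ⟨le_rfl, ?_⟩
      have : x ≤ j * x := Nat.le_mul_of_pos_left _ hj1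
      have h5 : (x : ℤ) ≤ N := by exact_mod_cast this.trans hx3
      linarith
    · show (1 : ℤ) ≤ (C i : ℤ) ∧ (C i : ℤ) * (x : ℤ) ≤ (N : ℤ)
      refine ⟨by exact_mod_cast (hC i).1, ?_⟩
      have : C i * x ≤ j * x := Nat.mul_le_mul_right _ (hC i).2
      exact_mod_cast this.trans hx3) (by
    intro i
    refine Fin.cases ?_ (fun i => ?_) i
    · show (0 : ℤ) ≤ 0 ∧ (0 : ℤ) ≤ (B : ℤ) * N
      exact ⟨le_rfl, by positivity⟩
    · show (0 : ℤ) ≤ (a i : ℤ) ∧ (a i : ℤ) ≤ (B : ℤ) * N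
      exact ⟨by positivity, by exact_mod_cast haB i⟩) (by
    intro i i'
    refine Fin.cases ?_ (fun i => ?_) i
    · refine Fin.cases ?_ (fun i' => ?_) i'
      · intro h; exact absurd rfl h
      · intro _
        show (1 : ℤ) * (a i' : ℤ) ≠ (C i' : ℤ) * 0
        have := ha0 i'
        rw [one_mul, mul_zero]
        exact_mod_cast this
    · refine Fin.cases ?_ (fun i' => ?_) i'
      · intro _
        show (C i : ℤ) * 0 ≠ (1 : ℤ) * (a i : ℤ)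
        have := ha0 i
        rw [one_mul, mul_zero]
        exact_mod_cast this.symm
      · intro hne
        show (C i : ℤ) * (a i' : ℤ) ≠ (C i' : ℤ) * (a i : ℤ)
        have h5 := hane i i' (fun h => hne (by rw [h]))
        exact_mod_cast h5.symm) hadm (by rw [← hL]; exact hall)

/-- the one shift estimate for one law and one constant -/
def OneAt (A B0 E κκ U N cc : ℕ) (Ω : Finset ℕ) (p : ℕ → ℝ) : Prop :=
  (∀ v ∈ Ω, 0 ≤ p v) ∧ ∑ v ∈ Ω, p v = 1 ∧ (∀ v ∈ Ω, p v ≤ 1 / Real.log N ^ U) ∧ (∀ v ∈ Ω, cc + κκ * v ≤ A * N) ∧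
    ∀ z : ℕ, Real.log N ^ B0 ≤ z → (z : ℝ) ≤ Real.log N ^ E → ∀ Kc : ℝ, 0 < Kc → ∀ G : ℕ → ℝ, (∀ n ∈ Icc 1 N, |G n| ≤ Kc) →
      ∑ v ∈ Ω, p v * |∑ n ∈ Icc 1 N, G n * (lamI ((n : ℤ) + ((cc + κκ * v : ℕ) : ℤ)) - lamzI z ((n : ℤ) + ((cc + κκ * v : ℕ) : ℤ)))| ≤
        Kc * (N / Real.log N ^ U)

open Classical in
/-- all slopes and all scales at the same time -/
theorem ws_core (s : ℕ) (hs : 1 ≤ s) (κκ : Fin s → ℕ) (hκ : ∀ i, 1 ≤ κκ i)
    (U A V : ℕ) (hU : 1 ≤ U) (hV : V = 2 * U + A * (s + 2) + 3) (ε : ℝ) (hε : 0 < ε) (A' B0 : Fin s → ℕ) :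
    ∃ E N₀ : ℕ, ∀ N, N₀ ≤ N → ∀ (Ω : Fin s → Finset ℕ) (p : Fin s → ℕ → ℝ) (c : Fin s → ℕ),
    (∀ i, OneAt (A' i) (B0 i) E (κκ i) (V + s + 2) N (c i) (Ω i) (p i)) →
    ∑ m ∈ Fintype.piFinset Ω, (if ¬ (∀ j : ℕ, 1 ≤ j → (j : ℝ) ≤ Real.log N ^ A → ∀ C : Fin s → ℕ, (∀ i, 1 ≤ C i ∧ C i ≤ j) →
        Frm ε U N (N / j) C (fun i => c i + κκ i * m i)) then ∏ i, p i (m i) else 0) ≤ 1 / Real.log N ^ U := by
  obtain ⟨At, hAt⟩ : ∃ At, At = ∑ i, A' i := ⟨_, rfl⟩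
  obtain ⟨Bt, hBt⟩ : ∃ Bt, Bt = ∑ i, B0 i := ⟨_, rfl⟩
  have hAi : ∀ i, A' i ≤ At := fun i => by rw [hAt]; exact single_le_sum (fun _ _ => Nat.zero_le _) (mem_univ i)
  have hBi : ∀ i, B0 i ≤ Bt := fun i => by rw [hBt]; exact single_le_sum (fun _ _ => Nat.zero_le _) (mem_univ i)
  obtain ⟨E1, hE1⟩ : ∃ E1, E1 = Bt + (U + (s + 1) + (A + 1) + 4) := ⟨_, rfl⟩
  obtain ⟨n1, h1⟩ := size_x A
  obtain ⟨n2, h2⟩ := det_frm s hs A At U hU ε hε E1 (by omega)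
  obtain ⟨n3, h3⟩ := Vz_inv_small (E1 + 1)
  obtain ⟨n4, h4⟩ := ev_L' (2 + (s : ℝ) * 2 ^ s + Real.log ((At + 1 : ℕ) : ℝ) + (s + s * s + 2))
  refine ⟨E1 + 1, n1 + n2 + n3 + n4 + 1, fun N hN Ω p c hall => ?_⟩
  have hL := h4 N (by omega)
  obtain ⟨L, hLdef⟩ : ∃ L, L = Real.log (N : ℝ) := ⟨_, rfl⟩
  have q0 : 0 ≤ Real.log ((At + 1 : ℕ) : ℝ) := Real.log_natCast_nonneg _
  have q1 : 0 ≤ (s : ℝ) * 2 ^ s := by positivity
  have q2 : 0 ≤ ((s : ℝ) + s * s + 2) := by positivity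
  rw [← hLdef] at hL
  have hL2 : 2 ≤ L := by linarith
  have hL1 : 1 ≤ L := by linarith
  have hL0 : 0 < L := by linarith
  have hN0 : (0 : ℝ) < N := by exact_mod_cast (by omega : 0 < N)
  -- the level
  obtain ⟨z, hz⟩ : ∃ z, z = ⌈L ^ E1⌉₊ := ⟨_, rfl⟩
  have hz1 : L ^ E1 ≤ z := by rw [hz]; exact Nat.le_ceil _
  have hz2 : (z : ℝ) ≤ L ^ (E1 + 1) := by
    have q1 : (z : ℝ) < L ^ E1 + 1 := by rw [hz]; exact Nat.ceil_lt_add_one (by positivity)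
    have q2 : 1 ≤ L ^ E1 := one_le_pow₀ hL1
    rw [pow_succ]
    nlinarith
  have hzn : 1 ≤ z := by
    have : (1 : ℝ) ≤ z := (one_le_pow₀ hL1).trans hz1
    exact_mod_cast this
  have hz3 : ∀ i, L ^ B0 i ≤ z := fun i => (pow_le_pow_right₀ hL1 (by have := hBi i; omega)).trans hz1
  have hp0 := fun i => (hall i).1
  have hp1 := fun i => (hall i).2.1
  have hpθ := fun i => (hall i).2.2.1
  have hpA := fun i => (hall i).2.2.2.1
  have hone := fun i => (hall i).2.2.2.2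
  have hpA' : ∀ i, ∀ v ∈ Ω i, c i + κκ i * v ≤ At * N := fun i v hv =>
    (hpA i v hv).trans (Nat.mul_le_mul_right _ (hAi i))
  rw [← hLdef] at hpθ
  have hVz := h3 N (by omega) z hzn (by rw [← hLdef]; exact hz2)
  -- one scale and one vector of slopes
  have hsingle : ∀ j : ℕ, 1 ≤ j → (j : ℝ) ≤ L ^ A → ∀ C : Fin s → ℕ, (∀ i, 1 ≤ C i ∧ C i ≤ j) →
      ∑ m ∈ Fintype.piFinset Ω, (if ¬ Frm ε U N (N / j) C (fun i => c i + κκ i * m i) then ∏ i, p i (m i) else 0) ≤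
        ((s : ℝ) + s * s + 2) * L ^ (U + A + 2) / L ^ V := by
    intro j hj1 hj2 C hC
    obtain ⟨hx1, hx2, hx3⟩ := h1 N (by omega) j hj1 (by rw [← hLdef]; exact hj2)
    rw [← hLdef] at hx1
    obtain ⟨x, hx⟩ : ∃ x, x = N / j := ⟨_, rfl⟩
    have hdet := h2 N (by omega) z (by rw [← hLdef]; exact hz1) (by rw [← hLdef]; exact hz2) j hj1 (by rw [← hLdef]; exact hj2) C hC
    rw [← hx] at hx1 hx2 hx3 hdet ⊢
    rw [← hLdef] at hdet
    have hCx : ∀ i, 1 ≤ C i ∧ C i * x ≤ N := fun i => ⟨(hC i).1, (Nat.mul_le_mul_right _ (hC i).2).trans hx3⟩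
    have hx0 : (0 : ℝ) < x := lt_of_lt_of_le (Real.sqrt_pos.2 hN0) hx2
    have hD := lf_diff N At z x V C κκ c Ω p hp0 hp1 hpA' hCx (fun i K hK G hG => hone i z (by rw [← hLdef]; exact hz3 i)
      (by rw [← hLdef]; exact hz2) K hK G hG) (by omega) (by rw [← hLdef]; exact hL1) (by rw [← hLdef]; linarith)
      (by rw [← hLdef]; linarith) hVz (fun n => ArithmeticFunction.vonMangoldt n) (by
        intro n hn
        rw [mem_Icc] at hn
        rw [abs_of_nonneg ArithmeticFunction.vonMangoldt_nonneg]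
        apply ArithmeticFunction.vonMangoldt_le_log.trans
        apply Real.log_le_log (by exact_mod_cast hn.1)
        have h5 : n ≤ N := by
          have : x ≤ j * x := Nat.le_mul_of_pos_left _ hj1
          omega
        exact_mod_cast h5)
    rw [← hLdef] at hD
    have hbad := bad_gen C κκ c (fun i => (hC i).1) hκ Ω p hp0 hp1 (1 / L ^ (V + s + 2)) (by positivity) hpθ
      (fun m => |∑ n ∈ Icc 1 x, ArithmeticFunction.vonMangoldt n *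
        (∏ i, lamI ((C i : ℤ) * (n : ℤ) + ((c i + κκ i * m i : ℕ) : ℤ)) - ∏ i, lamzI z ((C i : ℤ) * (n : ℤ) + ((c i + κκ i * m i : ℕ) : ℤ)))|)
      (fun m => abs_nonneg _) (fun m => Frm ε U N x C (fun i => c i + κκ i * m i)) ((1 / 2) * ((x : ℝ) / L ^ (U + 1))) (N / L ^ V)
      (by positivity) (fun m hm g1 g2 g3 => hdet (fun i => c i + κκ i * m i)
        (fun i => hpA' i _ (Fintype.mem_piFinset.1 hm i)) g1 (fun i i' hne => g2 i i' hne) g3) hD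
    refine hbad.trans ?_
    have e1 : 1 / L ^ (V + s + 2) ≤ L ^ (U + A + 2) / L ^ V := by
      rw [div_le_div_iff₀ (by positivity) (by positivity), one_mul, ← pow_add]
      exact pow_le_pow_right₀ hL1 (by omega)
    have e2 : (N : ℝ) / L ^ V / ((1 / 2) * ((x : ℝ) / L ^ (U + 1))) ≤ 2 * (L ^ (U + A + 2) / L ^ V) := by
      rw [div_le_iff₀ (by positivity)]
      have e3 : 2 * (L ^ (U + A + 2) / L ^ V) * (1 / 2 * ((x : ℝ) / L ^ (U + 1))) = (x * L ^ (A + 1)) / L ^ V := by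
        rw [show U + A + 2 = (U + 1) + (A + 1) by ring, pow_add L (U + 1) (A + 1)]
        field_simp
      rw [e3]
      exact div_le_div_of_nonneg_right hx1 (by positivity)
    calc ((s : ℝ) + s * s) * (1 / L ^ (V + s + 2)) + (N : ℝ) / L ^ V / ((1 / 2) * ((x : ℝ) / L ^ (U + 1))) ≤
        ((s : ℝ) + s * s) * (L ^ (U + A + 2) / L ^ V) + 2 * (L ^ (U + A + 2) / L ^ V) := by
          apply add_le_add (mul_le_mul_of_nonneg_left e1 (by positivity)) e2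
      _ = _ := by ring
  -- the union bound
  obtain ⟨J, hJ⟩ : ∃ J, J = ⌊L ^ A⌋₊ := ⟨_, rfl⟩
  have hJr : (J : ℝ) ≤ L ^ A := by rw [hJ]; exact Nat.floor_le (by positivity)
  obtain ⟨Pr, hPr⟩ : ∃ Pr : Finset (ℕ × (Fin s → ℕ)), Pr = (Icc 1 J) ×ˢ (Fintype.piFinset fun _ : Fin s => Icc 1 J) := ⟨_, rfl⟩
  have hPrc : (Pr.card : ℝ) ≤ L ^ (A * (s + 1)) := by
    rw [hPr, card_product, Fintype.card_piFinset, Nat.card_Icc, Nat.add_sub_cancel, prod_const, card_univ, Fintype.card_fin]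
    push_cast
    calc (J : ℝ) * (J : ℝ) ^ s = (J : ℝ) ^ (s + 1) := by ring
      _ ≤ (L ^ A) ^ (s + 1) := pow_le_pow_left₀ (Nat.cast_nonneg _) hJr _
      _ = _ := by rw [← pow_mul]
  have hun : ∀ m ∈ Fintype.piFinset Ω, (if ¬ (∀ j : ℕ, 1 ≤ j → (j : ℝ) ≤ Real.log N ^ A → ∀ C : Fin s → ℕ, (∀ i, 1 ≤ C i ∧ C i ≤ j) →
        Frm ε U N (N / j) C (fun i => c i + κκ i * m i)) then ∏ i, p i (m i) else 0) ≤
      ∑ g ∈ Pr, (if (∀ i, 1 ≤ g.2 i ∧ g.2 i ≤ g.1) ∧ ¬ Frm ε U N (N / g.1) g.2 (fun i => c i + κκ i * m i) then ∏ i, p i (m i) else 0) := by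
    intro m hm
    have hP0 : 0 ≤ ∏ i, p i (m i) := prod_nonneg fun j _ => hp0 j _ (Fintype.mem_piFinset.1 hm j)
    have hnn : ∀ g ∈ Pr, 0 ≤ (if (∀ i, 1 ≤ g.2 i ∧ g.2 i ≤ g.1) ∧ ¬ Frm ε U N (N / g.1) g.2 (fun i => c i + κκ i * m i) then ∏ i, p i (m i) else 0) := by
      intro g _
      split_ifs
      · exact hP0
      · exact le_rfl
    split_ifs with hc1
    · exact sum_nonneg hnn
    · push Not at hc1
      obtain ⟨j, hj1, hj2, C, hC, hF⟩ := hc1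
      rw [← hLdef] at hj2
      have hjJ : j ≤ J := by rw [hJ]; exact Nat.le_floor hj2
      have hmem : (j, C) ∈ Pr := by
        rw [hPr, mem_product, Fintype.mem_piFinset]
        refine ⟨mem_Icc.2 ⟨hj1, hjJ⟩, fun i => mem_Icc.2 ⟨(hC i).1, (hC i).2.trans hjJ⟩⟩
      have hs1 := single_le_sum hnn hmem
      rw [if_pos ⟨hC, hF⟩] at hs1
      exact hs1
  refine (sum_le_sum hun).trans ?_
  rw [sum_comm]
  have hone' : ∀ g ∈ Pr, ∑ m ∈ Fintype.piFinset Ω,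
      (if (∀ i, 1 ≤ g.2 i ∧ g.2 i ≤ g.1) ∧ ¬ Frm ε U N (N / g.1) g.2 (fun i => c i + κκ i * m i) then ∏ i, p i (m i) else 0) ≤
      ((s : ℝ) + s * s + 2) * L ^ (U + A + 2) / L ^ V := by
    intro g hg
    by_cases hg2 : ∀ i, 1 ≤ g.2 i ∧ g.2 i ≤ g.1
    · simp only [hg2, implies_true, true_and]
      rw [hPr, mem_product, mem_Icc] at hg
      exact hsingle g.1 hg.1.1 ((by exact_mod_cast hg.1.2 : (g.1 : ℝ) ≤ J).trans hJr) g.2 hg2
    · simp only [hg2, false_and, if_false, sum_const_zero]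
      positivity
  refine (sum_le_sum hone').trans ?_
  rw [sum_const, nsmul_eq_mul, ← hLdef]
  calc (Pr.card : ℝ) * (((s : ℝ) + s * s + 2) * L ^ (U + A + 2) / L ^ V) ≤
        L ^ (A * (s + 1)) * (L * L ^ (U + A + 2) / L ^ V) := by
        apply mul_le_mul hPrc _ (by positivity) (by positivity)
        apply div_le_div_of_nonneg_right _ (by positivity)
        apply mul_le_mul_of_nonneg_right _ (by positivity)
        linarith
    _ = L ^ (A * (s + 1) + (U + A + 3)) / L ^ V := by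
        rw [pow_add L (A * (s + 1)) (U + A + 3), show U + A + 3 = (U + A + 2) + 1 by ring, pow_succ L (U + A + 2)]
        ring
    _ ≤ 1 / L ^ U := by
        rw [div_le_div_iff₀ (by positivity) (by positivity), one_mul, ← pow_add]
        apply pow_le_pow_right₀ hL1
        rw [hV]
        nlinarith


open Classical in
/-- all slopes and all scales at the same time, for classes of laws -/
theorem ws_lf (s : ℕ) (hs : 1 ≤ s) (L : Fin s → ℕ → Finset ℕ → (ℕ → ℝ) → Prop) (κκ : Fin s → ℕ) (hκ : ∀ i, 1 ≤ κκ i)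
    (Bc U A V : ℕ) (hU : 1 ≤ U) (hV : V = 2 * U + A * (s + 2) + 3) (ε : ℝ) (hε : 0 < ε)
    (h : ∀ i, OneLaw (L i) (κκ i) Bc (V + s + 2)) :
    ∃ N₀ : ℕ, ∀ N, N₀ ≤ N → ∀ (Ω : Fin s → Finset ℕ) (p : Fin s → ℕ → ℝ), (∀ i, L i N (Ω i) (p i)) →
    ∀ c : Fin s → ℕ, (∀ i, c i ≤ Bc * N) →
    ∑ m ∈ Fintype.piFinset Ω, (if ¬ (∀ j : ℕ, 1 ≤ j → (j : ℝ) ≤ Real.log N ^ A → ∀ C : Fin s → ℕ, (∀ i, 1 ≤ C i ∧ C i ≤ j) →
        Frm ε U N (N / j) C (fun i => c i + κκ i * m i)) then ∏ i, p i (m i) else 0) ≤ 1 / Real.log N ^ U := by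
  choose A' B0 hE using h
  obtain ⟨E, n0, h0⟩ := ws_core s hs κκ hκ U A V hU hV ε hε A' B0
  choose N1 hN1 using fun i => hE i E
  obtain ⟨Nt, hNt⟩ : ∃ Nt, Nt = ∑ i, N1 i := ⟨_, rfl⟩
  have hNi : ∀ i, N1 i ≤ Nt := fun i => by rw [hNt]; exact single_le_sum (fun _ _ => Nat.zero_le _) (mem_univ i)
  exact ⟨Nt + n0, fun N hN Ω p hL' c hc => h0 N (by omega) Ω p c
    (fun i => hN1 i N (by have := hNi i; omega) (Ω i) (p i) (hL' i) (c i) (hc i))⟩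

end Pool.Agent.N699.ST
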