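import Pool.Agent.N699.ST.Asm

set_option autoImplicit false

/-! Primes `q` for which all `d i * q + a i` are primes: translation of the definitions. -/

namespace Pool.Agent.N699.ST
open Finset
open Pool.Agent.H373R2.T7
open Pool.Agent.Y820.LF

/-- admissible systems -/
def Adm {s : ℕ} (d a : Fin s → ℕ) : Prop := ∀ p : ℕ, p.Prime → ∃ r : ℕ, ¬ p ∣ r ∧ ∀ i, ¬ p ∣ d i * r + a i

/-- the number of the residues -/
def nu {s : ℕ} (d a : Fin s → ℕ) (p : ℕ) : ℕ := ((range p).filter fun r => p ∣ r * ∏ i, (d i * r + a i)).card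

/-- the partial products of the singular series -/
noncomputable def sing {s : ℕ} (d a : Fin s → ℕ) (z : ℕ) : ℝ :=
  ∏ p ∈ (Icc 1 z).filter Nat.Prime, (1 - (nu d a p : ℝ) / p) / (1 - 1 / (p : ℝ)) ^ (s + 1)

/-- the number of the primes `q ≤ x` for which all `d i * q + a i` are primes -/
def cnt {s : ℕ} (d a : Fin s → ℕ) (x : ℕ) : ℕ := ((Icc 1 x).filter fun q => q.Prime ∧ ∀ i, (d i * q + a i).Prime).card

lemma nu_eq {s : ℕ} (d a : Fin s → ℕ) (p : ℕ) (hp : p.Prime) : nuF (Cn d) (Hn a) p = nu d a p := by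
  classical
  unfold nuF nu
  congr 1
  apply filter_congr
  intro r _
  rw [Fin.exists_fin_succ, hp.dvd_mul, Prime.dvd_finsetProd_iff hp.prime]
  constructor
  · rintro (h | ⟨i, h⟩)
    · left
      have h1 : (p : ℤ) ∣ 1 * (r : ℤ) + 0 := h
      rw [one_mul, add_zero] at h1
      exact_mod_cast h1
    · right
      have h1 : (p : ℤ) ∣ (d i : ℤ) * (r : ℤ) + (a i : ℤ) := h
      exact ⟨i, mem_univ _, by exact_mod_cast h1⟩
  · rintro (h | ⟨i, _, h⟩)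
    · left
      show (p : ℤ) ∣ 1 * (r : ℤ) + 0
      rw [one_mul, add_zero]
      exact_mod_cast h
    · right
      refine ⟨i, ?_⟩
      show (p : ℤ) ∣ (d i : ℤ) * (r : ℤ) + (a i : ℤ)
      exact_mod_cast h

lemma sing_eq {s : ℕ} (d a : Fin s → ℕ) : singF (Cn d) (Hn a) = sing d a := by
  funext z
  unfold singF sing
  apply prod_congr rfl
  intro p hp
  rw [nu_eq d a p (mem_filter.1 hp).2]

lemma adm_F {s : ℕ} (d a : Fin s → ℕ) (h : Adm d a) : AdmF (Cn d) (Hn a) := by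
  classical
  intro p hp
  obtain ⟨r, hr1, hr2⟩ := h p hp
  rw [nu_eq d a p hp]
  unfold nu
  refine lt_of_lt_of_eq (card_lt_card ?_) (card_range p)
  refine ⟨filter_subset _ _, fun hsub => ?_⟩
  have h1 : r % p ∈ (range p).filter fun r => p ∣ r * ∏ i, (d i * r + a i) := hsub (mem_range.2 (Nat.mod_lt _ hp.pos))
  rw [mem_filter, hp.dvd_mul, Prime.dvd_finsetProd_iff hp.prime] at h1
  rcases h1.2 with h2 | ⟨i, _, h2⟩
  · exact hr1 ((Nat.dvd_iff_mod_eq_zero.2 (by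
      have := Nat.dvd_iff_mod_eq_zero.1 h2
      rwa [Nat.mod_mod] at this)))
  · apply hr2 i
    have h3 : d i * r + a i ≡ d i * (r % p) + a i [MOD p] :=
      Nat.ModEq.add_right _ (Nat.ModEq.mul_left _ (Nat.mod_modEq r p).symm)
    exact (Nat.ModEq.dvd_iff h3 dvd_rfl).2 h2

lemma cnt_eq {s : ℕ} (d a : Fin s → ℕ) (x : ℕ) : cntF (Cn d) (Hn a) x = cnt d a x := by
  unfold Cn Hn cnt
  rw [cntF_C1]
  congr 1

lemma sum_eq {s : ℕ} (d a : Fin s → ℕ) (x : ℕ) :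
    ∑ n ∈ Icc 1 x, ∏ i, lamI (Cn d i * (n : ℤ) + Hn a i) =
      ∑ n ∈ Icc 1 x, ArithmeticFunction.vonMangoldt n * ∏ i, ArithmeticFunction.vonMangoldt (d i * n + a i) := by
  apply sum_congr rfl
  intro n hn
  have hn1 := (mem_Icc.1 hn).1
  rw [Fin.prod_univ_succ]
  have e0 : lamI (Cn d 0 * (n : ℤ) + Hn a 0) = ArithmeticFunction.vonMangoldt n := by
    show lamI (1 * (n : ℤ) + 0) = _
    unfold lamI
    rw [if_pos (by omega), one_mul, add_zero, Int.toNat_natCast]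
  rw [e0]
  congr 1
  apply prod_congr rfl
  intro i _
  show lamI ((d i : ℤ) * (n : ℤ) + (a i : ℤ)) = _
  have h1 : (d i : ℤ) * (n : ℤ) + (a i : ℤ) = ((d i * n + a i : ℕ) : ℤ) := by push_cast; ring
  rw [h1]
  unfold lamI
  by_cases h2 : 1 ≤ ((d i * n + a i : ℕ) : ℤ)
  · rw [if_pos h2, Int.toNat_natCast]
  · rw [if_neg h2]
    have h3 : d i * n + a i = 0 := by omega
    rw [h3]
    simp

/-- the formula of Hardy and Littlewood -/
def Fo {s : ℕ} (ε : ℝ) (U N x : ℕ) (d a : Fin s → ℕ) : Prop :=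
  ∃ S : ℝ, 0 < S ∧ Filter.Tendsto (sing d a) Filter.atTop (nhds S) ∧
    |∑ n ∈ Icc 1 x, ArithmeticFunction.vonMangoldt n * ∏ i, ArithmeticFunction.vonMangoldt (d i * n + a i) - S * x| ≤
      x / Real.log N ^ U ∧
    |(cnt d a x : ℝ) - S * (x / Real.log N ^ (s + 1))| ≤ ε * (S * (x / Real.log N ^ (s + 1)))

lemma frm_Fo {s : ℕ} (ε : ℝ) (U N x : ℕ) (hN : 3 ≤ N) (d a : Fin s → ℕ) (h : Frm ε (U + 1) N x d a) (ha : Adm d a) :
    Fo ε U N x d a := by
  obtain ⟨S, hS0, hS, h1, h2⟩ := h (adm_F d a ha)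
  rw [sing_eq] at hS
  rw [sum_eq] at h1
  rw [cnt_eq] at h2
  refine ⟨S, hS0, hS, h1.trans ?_, h2⟩
  have hL : 1 ≤ Real.log N := by
    rw [Real.le_log_iff_exp_le (by exact_mod_cast (by omega : 0 < N))]
    have : (3 : ℝ) ≤ N := by exact_mod_cast hN
    linarith [Real.exp_one_lt_d9]
  exact div_le_div_of_nonneg_left (Nat.cast_nonneg _) (by positivity) (pow_le_pow_right₀ hL (by omega))

/-- all the slopes up to `log ^ A N` and all the lengths `N / j` -/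
def AllS {s : ℕ} (ε : ℝ) (A U N : ℕ) (a : Fin s → ℕ) : Prop :=
  ∀ (j : ℕ) (d : Fin s → ℕ), (j : ℝ) ≤ Real.log N ^ A → (∀ i, 1 ≤ d i ∧ d i ≤ j) → Adm d a → Fo ε U N (N / j) d a

open Pool.Agent.N469.PT (OneLaw) in
open Classical in
/-- the general theorem, in terms of `AllS` -/
theorem ws_all (s : ℕ) (hs : 1 ≤ s) (L : Fin s → ℕ → Finset ℕ → (ℕ → ℝ) → Prop) (κκ : Fin s → ℕ) (hκ : ∀ i, 1 ≤ κκ i)
    (Bc U A V : ℕ) (hV : V = 2 * (U + 1) + A * (s + 2) + 3) (ε : ℝ) (hε : 0 < ε)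
    (h : ∀ i, OneLaw (L i) (κκ i) Bc (V + s + 2)) :
    ∃ N₀ : ℕ, ∀ N, N₀ ≤ N → ∀ (Ω : Fin s → Finset ℕ) (p : Fin s → ℕ → ℝ), (∀ i, L i N (Ω i) (p i)) →
    (∀ i, ∀ v ∈ Ω i, 0 ≤ p i v) → ∀ c : Fin s → ℕ, (∀ i, c i ≤ Bc * N) →
    ∑ m ∈ Fintype.piFinset Ω, (if ¬ AllS ε A U N (fun i => c i + κκ i * m i) then ∏ i, p i (m i) else 0) ≤ 1 / Real.log N ^ U := by
  obtain ⟨N₀, h0⟩ := ws_lf s hs L κκ hκ Bc (U + 1) A V (by omega) hV ε hε h
  refine ⟨N₀ + 3, fun N hN Ω p hL hp c hc => ?_⟩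
  have h1 := h0 N (by omega) Ω p hL c hc
  have hL : 1 ≤ Real.log N := by
    rw [Real.le_log_iff_exp_le (by exact_mod_cast (by omega : 0 < N))]
    have : (3 : ℝ) ≤ N := by exact_mod_cast (by omega : 3 ≤ N)
    linarith [Real.exp_one_lt_d9]
  have h2 : 1 / Real.log N ^ (U + 1) ≤ 1 / Real.log N ^ U :=
    one_div_le_one_div_of_le (by positivity) (pow_le_pow_right₀ hL (by omega))
  refine le_trans (sum_le_sum ?_) (h1.trans h2)
  intro m hm
  have hP0 : 0 ≤ ∏ i, p i (m i) := prod_nonneg fun j _ => hp j _ (Fintype.mem_piFinset.1 hm j)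
  by_cases h3 : AllS ε A U N (fun i => c i + κκ i * m i)
  · rw [if_neg (not_not.2 h3)]
    split_ifs
    · exact le_rfl
    · exact hP0
  · rw [if_pos h3, if_pos]
    intro h4
    apply h3
    intro j d hj hd had
    have hj1 : 1 ≤ j := by
      have := hd ⟨0, hs⟩
      omega
    exact frm_Fo ε U N (N / j) (by omega) d _ (h4 j hj1 hj d hd) had

end Pool.Agent.N699.ST
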